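import Pool.Agent.Helper31.PS.Thin

set_option autoImplicit false

/-!
# Invariant sets of polygonal billiards move with positive speed when the polygon is deformed

`p : Fin (n + 3) → ℂ` lists the vertices of a convex polygon (`IsConvexPolygon`), a state is a pair
`(z, θ)` of a position and a direction angle, `IsInvariant p A` says that the set of states `A` is
invariant under the billiard flow in `p`, `phase p` is the phase space `region p × [0, 2π)`,
`IsTrivial p A` says that `A` is null or conull in it.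

`Thin 𝓕` says that the family `𝓕` of sets of states has zero one-dimensional Hausdorff measure, for
the distance `volume (A ∆ B ∩ (closedBall 0 R × [0, 2π)))`, for every `R`.
-/

namespace Pool.Agent.Results.MP_7bc51d_an.PositiveSpeed

open Set MeasureTheory Pool.Agent.W780.BB Pool.Agent.W780.PG Pool.Agent.Helper31.PS

open scoped Real

theorem result {n : ℕ} :
    (∀ p : Fin (n + 3) → ℂ, IsConvexPolygon p →
      ∃ F : Finset (Submodule ℝ (Fin (n + 3) → ℂ)), (∀ W ∈ F, W ≠ ⊤) ∧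
      ∀ v : Fin (n + 3) → ℂ, (∀ W ∈ F, v ∉ W) →
      ∀ A : Set (ℂ × ℝ), MeasurableSet A → IsInvariant p A → ¬ IsTrivial p A →
      ∃ c : ℝ, 0 < c ∧ ∀ t : ℝ, 0 < t → t < c →
      ∀ q : Fin (n + 3) → ℂ, IsConvexPolygon q → ‖q - (p + t • v)‖ ≤ c * t →
      ∀ A' : Set (ℂ × ℝ), MeasurableSet A' → IsInvariant q A' →
      ENNReal.ofReal (c * t) ≤ volume (phase p ∩ {x | ¬ (x ∈ A ↔ x ∈ A')})) ∧
    (∀ 𝓕 : Set (Set (ℂ × ℝ)), (∀ A ∈ 𝓕, MeasurableSet A) → Thin 𝓕 →
      ∀ᵐ p : Fin (n + 3) → ℂ, IsConvexPolygon p →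
        ∀ A ∈ 𝓕, IsInvariant p A → IsTrivial p A) ∧
    (∀ 𝓕 : Set (Set (ℂ × ℝ)), 𝓕.Countable → Thin 𝓕) :=
  ⟨fun _ hp => speed' hp, fun _ hm hT => thin_ae hm hT, fun _ h => thin_countable h⟩

end Pool.Agent.Results.MP_7bc51d_an.PositiveSpeed
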